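import Pool.Agent.Helper58.SF.StB

/-!
# Project SF, module CNA: the points of a level above a point form a connected set
-/

set_option autoImplicit false

namespace Pool.Agent.Helper42.SF

open Set Topology Pool.Agent.Helper13.TR Pool.Agent.Helper58.SF
open Pool.Agent.Helper13.TW (IsArc Spl IsSCC dch Chn Splt GT CSy MP Val LR MCell StARB StARX StSCL StUAR StINF StLIN StAC1 StSDM)

theorem hCNA : StTUB → StBEX → StMV → StMON → StDEG → StFLW → StCNA := by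
  intro hTUB _ hMV hMON hDEG hFLW P _ r R dg hSB x t' hxt ht1
  haveI := hSB.met
  haveI : T2Space P := by
    letI := TopologicalSpace.metrizableSpaceMetric P
    infer_instance
  have hbox : Box P r R := hSB.box
  have hfl : Flow P r R := hbox.toFlow
  obtain ⟨f1, f2, f3, f4, f5, f6, f7, f8⟩ := hFLW P r R hfl
  obtain ⟨d1, d2, d3, d4, d5⟩ := hDEG P dg hSB.ws
  obtain ⟨m1, m2, m3, m4, m5, m6⟩ := hMON P
  have hx0 : 0 < r x := hfl.pos x
  have ht0 : 0 < t' := lt_of_lt_of_le hx0 hxt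
  obtain ⟨upc, -, -, -, upe, -, -⟩ := f3 x
  have hRx : ∀ y : P, y ∈ Up r R x → ∀ σ : ℝ, r x ≤ σ → R σ y ∈ Up r R x := by
    intro y hy σ hσ
    refine ⟨?_, ?_⟩
    · rw [hfl.rR σ y (lt_of_lt_of_le hx0 hσ)]
      exact le_min hσ hy.1
    · rw [hfl.RR (r x) σ y hx0 hσ]
      exact hy.2
  set F : Set P := {y : P | r y = t' ∧ y ∈ Up r R x} with hF
  have hFc : IsClosed F := (isClosed_eq hfl.rc continuous_const).inter upc
  have hFk : IsCompact F := by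
    refine (hbox.cpt (r x) t' {x} hx0 hxt ht1 isCompact_singleton (by simp)).of_isClosed_subset hFc ?_
    rintro y ⟨h1, h2⟩
    exact ⟨h2.1, h1.le, h2.2⟩
  rw [isPreconnected_iff_subset_of_fully_disjoint_closed hFc]
  intro u v hu hv huv hd
  by_contra hcon
  push Not at hcon
  obtain ⟨hnu, hnv⟩ := hcon
  obtain ⟨z, hzF, hzu⟩ := not_subset.1 hnu
  obtain ⟨z₁, hz₁F, hz₁v⟩ := not_subset.1 hnv
  have hzv : z ∈ v := (huv hzF).resolve_left hzu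
  have hz₁u : z₁ ∈ u := (huv hz₁F).resolve_right hz₁v
  set F₁ : Set P := F ∩ u with hF₁
  set F₂ : Set P := F ∩ v with hF₂
  have hF₁c : IsClosed F₁ := hFc.inter hu
  have hF₂c : IsClosed F₂ := hFc.inter hv
  have hF₂k : IsCompact F₂ := hFk.inter_right hv
  have hdis : ∀ y : P, y ∈ F₁ → y ∈ F₂ → False := fun y h1 h2 => (Set.disjoint_left.1 hd) h1.2 h2.2
  set T : Set P := {y : P | y ∈ Up r R x ∧ r y ≤ t'} with hT
  have hTc : IsClosed T := upc.inter (isClosed_le hfl.rc continuous_const)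
  set B₁ : Set P := T ∪ UpS r R t' F₁ with hB₁
  set B₂ : Set P := UpS r R t' F₂ with hB₂
  have hB₁c : IsClosed B₁ := hTc.union (f2 t' F₁ ht0 hF₁c)
  have hB₂c : IsClosed B₂ := f2 t' F₂ ht0 hF₂c
  have hback : ∀ y : P, t' ≤ r y → R t' y ∈ Up r R x → y ∈ Up r R x := by
    intro y h1 h2
    refine ⟨hxt.trans h1, ?_⟩
    rw [← hfl.RR (r x) t' y hx0 hxt]
    exact h2.2
  have hun : B₁ ∪ B₂ = Up r R x := by
    ext y
    constructor
    · rintro ((h | h) | h)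
      · exact h.1
      · exact hback y h.1 h.2.1.2
      · exact hback y h.1 h.2.1.2
    · intro hy
      by_cases hyt : r y ≤ t'
      · exact Or.inl (Or.inl ⟨hy, hyt⟩)
      · push Not at hyt
        have h1 : R t' y ∈ F := by
          refine ⟨?_, hRx y hy t' hxt⟩
          rw [hfl.rR t' y ht0, min_eq_left hyt.le]
        rcases huv h1 with h2 | h2
        · exact Or.inl (Or.inr ⟨hyt.le, h1, h2⟩)
        · exact Or.inr ⟨hyt.le, h1, h2⟩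
  have hin : B₁ ∩ B₂ = F₂ := by
    ext y
    constructor
    · rintro ⟨h | h, h2⟩
      · have : R t' y = y := hfl.Rid t' y h.2
        have h3 := h2.2
        rw [this] at h3
        exact h3
      · exact (hdis _ h.2 h2.2).elim
    · intro hy
      have h1 : R t' y = y := hfl.Rid t' y hy.1.1.le
      refine ⟨Or.inl ⟨hy.1.2, hy.1.1.le⟩, hy.1.1.ge, ?_⟩
      rw [h1]
      exact hy
  obtain ⟨c, hc, hc1⟩ := hSB.ws.cls F₂ hF₂k
  have hmv := (hMV P B₁ B₂ hB₁c hB₂c 2).2.1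
  rw [hin, hun] at hmv
  obtain ⟨c', σ, hcc, hσ, b₁, b₂, hb, hb₁, hb₂⟩ := hmv c hc
  have hPU : PP (Up r R x) 2 := by
    rw [upe]
    exact hTUB P r R hfl (r x) {x} 2 hx0
  have hσN : σ ∈ Nul (Up r R x) 2 := hPU hσ
  obtain ⟨ρ, hρ, _, ⟨β, rfl⟩, hρβ⟩ := Submodule.mem_sup.1 hσN
  have hUB₁ : B₁ ⊆ Up r R x := by
    rw [← hun]; exact subset_union_left
  have hUB₂ : B₂ ⊆ Up r R x := by
    rw [← hun]; exact subset_union_right
  have key : ∀ (B : Set P) (b : Ch P 3), B ⊆ Up r R x → σ - bd 2 b ∈ cin Bᶜ 2 → b - β ∈ Cyc B 3 := by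
    intro B b hB hb
    change bd 2 (b - β) ∈ cin Bᶜ 2
    have e : bd 2 (b - β) = ρ - (σ - bd 2 b) := by
      rw [map_sub, ← hρβ]
      abel
    rw [e]
    exact Submodule.sub_mem _ (m1 _ _ 2 (compl_subset_compl.2 hB) hρ) hb
  have k₁ : b₁ - β ∈ Cyc B₁ 3 := key B₁ b₁ hUB₁ hb₁
  have k₂ : b₂ - β ∈ Cyc B₂ 3 := key B₂ b₂ hUB₂ hb₂
  have hzF₂ : z ∈ F₂ := ⟨hzF, hzv⟩
  have hzB : z ∈ B₁ ∩ B₂ := by
    rw [hin]; exact hzF₂
  have hz₁F₁ : z₁ ∈ F₁ := ⟨hz₁F, hz₁u⟩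
  have hz₁up : z₁ ∈ UpS r R t' F₁ := by
    refine ⟨hz₁F.1.ge, ?_⟩
    rw [hfl.Rid t' z₁ hz₁F.1.le]
    exact hz₁F₁
  have q₂ : dg z (b₂ - β) = 0 := d4 B₂ (hTUB P r R hfl t' F₂ 3 ht0) _ k₂ z hzB.2
  have q₁ : dg z₁ (b₁ - β) = 0 := by
    refine d4 (UpS r R t' F₁) (hTUB P r R hfl t' F₁ 3 ht0) _ ?_ z₁ hz₁up
    exact (m5 (UpS r R t' F₁) B₁ 3 subset_union_right).1 k₁
  have hj : ∀ y ∈ F, JoinedIn B₁ y x := by
    intro y hy
    have h := f4 (r x) y hx0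
    rw [hy.2.2] at h
    refine h.mono ?_
    rintro w ⟨s, hs, rfl⟩
    refine Or.inl ⟨hRx y hy.2 s hs, ?_⟩
    rw [hfl.rR s y (lt_of_lt_of_le hx0 hs)]
    exact (min_le_right _ _).trans hy.1.le
  have hjz : JoinedIn B₁ z z₁ := (hj z hzF).trans (hj z₁ hz₁F).symm
  have q₃ : dg z (b₁ - β) = 0 := by
    rw [d3 B₁ _ k₁ z z₁ hjz]
    exact q₁
  have s₁ : b₁ - β ∈ Cyc {z} 3 := (m5 {z} B₁ 3 (singleton_subset_iff.2 hzB.1)).1 k₁
  have s₂ : b₂ - β ∈ Cyc {z} 3 := (m5 {z} B₂ 3 (singleton_subset_iff.2 hzB.2)).1 k₂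
  have ec : c' = (b₁ - β) - (b₂ - β) := by
    rw [← hb]; abel
  have q₄ : dg z c' = 0 := by
    rw [ec, (d1 z).2.1 _ s₁ _ s₂, q₃, q₂]
    norm_num
  have s₃ : c' ∈ Cyc {z} 3 := by
    rw [ec]
    exact Submodule.sub_mem _ s₁ s₂
  have s₄ : c ∈ Cyc {z} 3 := (m5 {z} F₂ 3 (singleton_subset_iff.2 hzF₂)).1 hc
  have s₅ : c - c' ∈ Nul {z} 3 := (m5 {z} F₂ 3 (singleton_subset_iff.2 hzF₂)).2 hcc
  have q₅ : dg z (c - c') = 0 := hSB.ws.nul z _ s₅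
  have q₆ := (d1 z).2.1 _ s₄ _ s₃
  rw [q₅, q₄, hc1 z hzF₂] at q₆
  norm_num at q₆

end Pool.Agent.Helper42.SF
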