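import Pool.Agent.Helper58.SF.StG

/-!
# Project SF, module FIN: the final statement
-/

set_option autoImplicit false

namespace Pool.Agent.Helper42.SF

open Set Topology Pool.Agent.Helper13.TR Pool.Agent.Helper58.SF
open Pool.Agent.Helper13.TW (IsArc Spl IsSCC dch Chn Splt GT CSy MP Val LR MCell StARB StARX StSCL StUAR StINF StLIN StAC1 StSDM StLRC StBF StMD1 StMD2 StMD3)

theorem hFIN : StBX1 → StSBX → StFNP → StFIN := by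
  intro hBX1 hSBX hFNP X _ _ _ _ hHM hLH x N ε rr Φ hN hxN hε h1 h2 h3 h4 h5
  obtain ⟨U₁, r, R, dg, hU₁, hxU₁, hSB⟩ := hBX1 X hHM hLH x N ε rr Φ hN hxN hε h1 h2 h3 h4 h5
  obtain ⟨U₂, r', R', dg', hU₂, hxU₂, hGB⟩ := hSBX ↥U₁ r R dg hSB ⟨x, hxU₁⟩
  haveI := hGB.met
  have key : ∃ U : Set ↥U₂, IsOpen U ∧ (⟨⟨x, hxU₁⟩, hxU₂⟩ : ↥U₂) ∈ U ∧ ∃ f : ↥U → ℝ × ℝ × ℝ, IsOpenEmbedding f :=
    @hFNP ↥U₂ (TopologicalSpace.metrizableSpaceMetric ↥U₂) r' R' dg' hGB ⟨⟨x, hxU₁⟩, hxU₂⟩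
  obtain ⟨U₃, hU₃, hxU₃, f, hf⟩ := key
  let i : ↥U₃ → X := fun w => w.1.1.1
  have hi : IsOpenEmbedding i :=
    hU₁.isOpenEmbedding_subtypeVal.comp (hU₂.isOpenEmbedding_subtypeVal.comp hU₃.isOpenEmbedding_subtypeVal)
  refine ⟨range i, hi.isOpen_range, ⟨⟨⟨⟨x, hxU₁⟩, hxU₂⟩, hxU₃⟩, rfl⟩, ?_⟩
  exact ⟨f ∘ (hi.isEmbedding.toHomeomorph).symm, hf.comp (hi.isEmbedding.toHomeomorph).symm.isOpenEmbedding⟩

end Pool.Agent.Helper42.SF
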